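import Pool.Agent.E8helper62.RX.Ker
import Pool.Agent.E8helper14.LI.Gs
import Pool.Agent.H313R3.TK.I

/-!
# One-sided averages of a sum over zeros
-/

set_option autoImplicit false
set_option linter.unusedVariables false

open Complex MeasureTheory Filter Topology Set Metric
open scoped ComplexConjugate

namespace Pool.Agent.E8helper62.RX

noncomputable section

open H313.TK (int_exp_abs norm_tw part_id part_le refl_Icc)
open Pool.Agent.E8helper14.LI (hG)

/-- the data: a sum over zeros and a positive kernel whose transform vanishes at the zeros -/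
structure Dt (a : ℝ) (m : ℂ → ℕ) (E : ℝ → ℝ) (X : ℂ → ℂ) (Φ : ℝ → ℝ) : Prop where
  strip : ∀ s, m s ≠ 0 → |s.re - 1 / 2| ≤ 1 / 2
  refl : ∀ s, m (1 - conj s) = m s
  sum : ∀ v, Summable (fun s : ℂ => ‖(m s : ℂ) * hG a v (s - 1 / 2)‖)
  ct : Continuous E
  neg : ∃ C : ℝ, ∀ v, v ≤ 0 → |E v| ≤ C
  ef : ∃ R : ℝ → ℂ, ∃ C : ℝ, (∀ v, 0 ≤ v → ‖R v‖ ≤ C) ∧ Tendsto R atTop (𝓝 0) ∧
    ∀ v : ℝ, ∑' s : ℂ, (m s : ℂ) * hG a v (s - 1 / 2) = (E v : ℂ) + R v
  zero : ∀ s, m s ≠ 0 ↔ X (s - 1 / 2) = 0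
  an : ∀ w, AnalyticAt ℂ X w
  fin : ∀ w, analyticOrderAt X w ≠ ⊤
  kc : Continuous Φ
  kb : ∃ c C : ℝ, 0 < c ∧ 0 < C ∧ ∀ u, c * W1 u ≤ Φ u ∧ Φ u ≤ C * W1 u
  kt : ∀ w : ℂ, |w.re| ≤ 2 → tr (fun u => (Φ u : ℂ)) w = X w

variable {a : ℝ} {m : ℂ → ℕ} {E : ℝ → ℝ} {X : ℂ → ℂ} {Φ : ℝ → ℝ}

/-- the sum over the zeros -/
def Zs (a : ℝ) (m : ℂ → ℕ) (v : ℝ) : ℂ := ∑' s : ℂ, (m s : ℂ) * hG a v (s - 1 / 2)

/-- the remainder -/
def Rf (a : ℝ) (m : ℂ → ℕ) (E : ℝ → ℝ) (v : ℝ) : ℂ := Zs a m v - (E v : ℂ)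

lemma hG_shift (v u : ℝ) (w : ℂ) : hG a (v - u) w = hG a v w * cexp (-w * u) := by
  unfold hG
  rw [← Complex.exp_add]
  congr 1
  push_cast
  ring

lemma term_norm (v : ℝ) (s : ℂ) : ‖(m s : ℂ) * hG a v (s - 1 / 2)‖ =
    ‖(m s : ℂ) * hG a 0 (s - 1 / 2)‖ * Real.exp (v * (s.re - 1 / 2)) := by
  have h1 := hG_shift (a := a) 0 (-v) (s - 1 / 2)
  rw [sub_neg_eq_add, zero_add] at h1
  rw [h1, ← mul_assoc, norm_mul, norm_tw]
  congr 2
  simp
  ring

lemma Dt.term_le (H : Dt a m E X Φ) (v : ℝ) (s : ℂ) : ‖(m s : ℂ) * hG a v (s - 1 / 2)‖ ≤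
    ‖(m s : ℂ) * hG a 0 (s - 1 / 2)‖ * Real.exp (|v| / 2) := by
  by_cases hs : m s = 0
  · rw [hs]; simp
  rw [term_norm]
  refine mul_le_mul_of_nonneg_left (Real.exp_le_exp.2 ?_) (norm_nonneg _)
  calc v * (s.re - 1 / 2) ≤ |v * (s.re - 1 / 2)| := le_abs_self _
    _ = |v| * |s.re - 1 / 2| := abs_mul _ _
    _ ≤ |v| * (1 / 2) := mul_le_mul_of_nonneg_left (H.strip s hs) (abs_nonneg _)
    _ = _ := by ring

lemma Dt.Zs_cont (H : Dt a m E X Φ) : Continuous (Zs a m) := by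
  rw [continuous_iff_continuousAt]
  intro v0
  have h1 : ContinuousOn (Zs a m) (ball v0 1) := by
    refine continuousOn_tsum (fun s => ?_) ((H.sum 0).mul_right (Real.exp ((|v0| + 1) / 2))) fun s v hv => ?_
    · unfold hG
      exact Continuous.continuousOn (by fun_prop)
    · refine (H.term_le v s).trans (mul_le_mul_of_nonneg_left (Real.exp_le_exp.2 ?_) (norm_nonneg _))
      rw [mem_ball, Real.dist_eq] at hv
      have h2 : |v| ≤ |v0| + |v - v0| := by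
        have := abs_add_le v0 (v - v0)
        rwa [add_sub_cancel] at this
      linarith
  exact h1.continuousAt (ball_mem_nhds v0 one_pos)

lemma Dt.Zs_le (H : Dt a m E X Φ) : ∃ S : ℝ, 0 ≤ S ∧ ∀ v, ‖Zs a m v‖ ≤ S * Real.exp (|v| / 2) := by
  refine ⟨∑' s : ℂ, ‖(m s : ℂ) * hG a 0 (s - 1 / 2)‖, tsum_nonneg fun _ => norm_nonneg _, fun v => ?_⟩
  exact tsum_of_norm_bounded (((H.sum 0).hasSum).mul_right _) fun s => H.term_le v s

lemma Dt.Rf_cont (H : Dt a m E X Φ) : Continuous (Rf a m E) := by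
  unfold Rf
  exact H.Zs_cont.sub (Complex.continuous_ofReal.comp H.ct)

lemma Dt.Rf_lim (H : Dt a m E X Φ) : Tendsto (Rf a m E) atTop (𝓝 0) := by
  obtain ⟨R, C, -, h2, h3⟩ := H.ef
  refine h2.congr fun v => ?_
  unfold Rf Zs
  rw [h3]; ring

lemma Dt.Rf_le (H : Dt a m E X Φ) : ∃ C : ℝ, 0 ≤ C ∧ ∀ v u : ℝ, 0 ≤ v → ‖Rf a m E (v - u)‖ ≤ C * Real.exp (|u| / 2) := by
  obtain ⟨R, C, h1, -, h3⟩ := H.ef
  obtain ⟨S, hS, hZ⟩ := H.Zs_le
  obtain ⟨C', hC'⟩ := H.neg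
  have hC0 : 0 ≤ C := (norm_nonneg _).trans (h1 0 le_rfl)
  have hC'0 : 0 ≤ C' := (abs_nonneg _).trans (hC' 0 le_rfl)
  refine ⟨C + S + C', by positivity, fun v u hv => ?_⟩
  have he : 1 ≤ Real.exp (|u| / 2) := Real.one_le_exp (by positivity)
  rcases le_total 0 (v - u) with h | h
  · have e : Rf a m E (v - u) = R (v - u) := by
      unfold Rf Zs
      rw [h3]; ring
    rw [e]
    have := h1 _ h
    nlinarith
  · have h4 : |v - u| ≤ |u| := by
      rw [abs_of_nonpos h]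
      linarith [le_abs_self u]
    have h5 : Real.exp (|v - u| / 2) ≤ Real.exp (|u| / 2) := Real.exp_le_exp.2 (by linarith)
    have h6 := hZ (v - u)
    have h7 := hC' _ h
    have h8 : ‖Rf a m E (v - u)‖ ≤ ‖Zs a m (v - u)‖ + |E (v - u)| := by
      unfold Rf
      refine (norm_sub_le _ _).trans ?_
      rw [Complex.norm_real, Real.norm_eq_abs]
    nlinarith

lemma Dt.E_le (H : Dt a m E X Φ) : ∃ K : ℝ, 0 ≤ K ∧ ∀ v, |E v| ≤ K * Real.exp (|v| / 2) := by
  obtain ⟨S, hS, hZ⟩ := H.Zs_le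
  obtain ⟨C, hC, hR⟩ := H.Rf_le
  obtain ⟨C', hC'⟩ := H.neg
  have hC'0 : 0 ≤ C' := (abs_nonneg _).trans (hC' 0 le_rfl)
  refine ⟨S + C + C', by positivity, fun v => ?_⟩
  have he : 1 ≤ Real.exp (|v| / 2) := Real.one_le_exp (by positivity)
  rcases le_total 0 v with h | h
  · have h1 := hR v 0 h
    rw [sub_zero, abs_zero, zero_div, Real.exp_zero, mul_one] at h1
    have h2 := hZ v
    have h3 : |E v| ≤ ‖Zs a m v‖ + ‖Rf a m E v‖ := by
      have e : ((E v : ℝ) : ℂ) = Zs a m v - Rf a m E v := by unfold Rf; ring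
      rw [← Real.norm_eq_abs, ← Complex.norm_real, e]
      exact norm_sub_le _ _
    nlinarith
  · have := hC' v h
    nlinarith

lemma g_int {g : ℝ → ℂ} (hg : DK1 g) : Integrable (fun u : ℝ => Real.exp (|u| / 2) * ‖g u‖) := by
  obtain ⟨C, hC, hb⟩ := hg.bd'
  have hc := hg.cont
  refine ((int_exp_abs 1 one_pos).const_mul C).mono' (by fun_prop) (ae_of_all _ fun u => ?_)
  rw [Real.norm_of_nonneg (by positivity)]
  calc Real.exp (|u| / 2) * ‖g u‖ ≤ Real.exp (|u| / 2) * (C * Real.exp (-(3 * |u|))) :=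
        mul_le_mul_of_nonneg_left (hb u) (Real.exp_pos _).le
    _ = C * (Real.exp (|u| / 2) * Real.exp (-(3 * |u|))) := by ring
    _ ≤ _ := by
      rw [← Real.exp_add]
      refine mul_le_mul_of_nonneg_left (Real.exp_le_exp.2 ?_) hC
      linarith [abs_nonneg u]

/-- the average of the sum over zeros -/
lemma Dt.conv_Z (H : Dt a m E X Φ) {g : ℝ → ℂ} (hg : DK1 g) (v : ℝ) :
    ∫ u : ℝ, Zs a m (v - u) * g u = ∑' s : ℂ, (m s : ℂ) * hG a v (s - 1 / 2) * tr g (s - 1 / 2) := by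
  set S : Set ℂ := {s | m s ≠ 0} with hS
  have hcount : Countable S := by
    have h1 := (H.sum 0).countable_support
    refine (h1.mono fun s hs => ?_).to_subtype
    rw [Function.mem_support, norm_ne_zero_iff]
    exact mul_ne_zero (Nat.cast_ne_zero.2 hs) (Complex.exp_ne_zero _)
  have hcg := hg.cont
  set F : S → ℝ → ℂ := fun s u => (m s : ℂ) * hG a v ((s : ℂ) - 1 / 2) * (cexp (-((s : ℂ) - 1 / 2) * u) * g u) with hF
  have hre : ∀ s : S, |((s : ℂ) - 1 / 2).re| ≤ 1 / 2 := by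
    intro s
    have := H.strip s s.2
    simpa using this
  have hFi : ∀ s : S, Integrable (F s) := fun s =>
    (tw_int hg _ (by have := hre s; linarith)).const_mul _
  have hFs : Summable fun s : S => ∫ u, ‖F s u‖ := by
    have h1 : Summable fun s : S => ‖(m s : ℂ) * hG a v ((s : ℂ) - 1 / 2)‖ * ∫ u : ℝ, Real.exp (|u| / 2) * ‖g u‖ :=
      ((H.sum v).subtype S).mul_right _
    refine Summable.of_nonneg_of_le (fun s => integral_nonneg fun u => norm_nonneg _) (fun s => ?_) h1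
    rw [← integral_const_mul]
    refine integral_mono (hFi s).norm ((g_int hg).const_mul _) fun u => ?_
    simp only [hF]
    rw [norm_mul, norm_mul (cexp _), norm_tw]
    refine mul_le_mul_of_nonneg_left (mul_le_mul_of_nonneg_right (Real.exp_le_exp.2 ?_) (norm_nonneg _)) (norm_nonneg _)
    calc -((s : ℂ) - 1 / 2).re * u ≤ |-((s : ℂ) - 1 / 2).re * u| := le_abs_self _
      _ = |((s : ℂ) - 1 / 2).re| * |u| := by rw [abs_mul, abs_neg]
      _ ≤ 1 / 2 * |u| := mul_le_mul_of_nonneg_right (hre s) (abs_nonneg _)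
      _ = _ := by ring
  have h := (hasSum_integral_of_summable_integral_norm hFi hFs).tsum_eq
  have e1 : ∀ u, ∑' s : S, F s u = Zs a m (v - u) * g u := by
    intro u
    have e2 : ∀ s : S, F s u = (fun s : ℂ => (m s : ℂ) * hG a (v - u) (s - 1 / 2) * g u) s := by
      intro s
      simp only [hF]
      rw [hG_shift]; ring
    simp_rw [e2]
    rw [tsum_subtype_eq_of_support_subset (f := fun s : ℂ => (m s : ℂ) * hG a (v - u) (s - 1 / 2) * g u), tsum_mul_right]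
    · rfl
    · intro s hs
      rw [Function.mem_support] at hs
      intro h0
      apply hs
      rw [h0]; simp
  simp_rw [e1] at h
  rw [← h]
  have e3 : ∀ s : S, ∫ u, F s u = (fun s : ℂ => (m s : ℂ) * hG a v (s - 1 / 2) * tr g (s - 1 / 2)) s := by
    intro s
    simp only [hF]
    rw [integral_const_mul]; rfl
  simp_rw [e3]
  exact tsum_subtype_eq_of_support_subset (f := fun s : ℂ => (m s : ℂ) * hG a v (s - 1 / 2) * tr g (s - 1 / 2)) (by
    intro s hs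
    rw [Function.mem_support] at hs
    intro h0
    apply hs
    rw [h0]; simp)

lemma Dt.Rf_int (H : Dt a m E X Φ) {g : ℝ → ℂ} (hg : DK1 g) {v : ℝ} (hv : 0 ≤ v) :
    Integrable (fun u : ℝ => Rf a m E (v - u) * g u) := by
  obtain ⟨C, hC, hR⟩ := H.Rf_le
  have hc := hg.cont
  have hRc := H.Rf_cont
  refine ((g_int hg).const_mul C).mono' (by fun_prop) (ae_of_all _ fun u => ?_)
  rw [norm_mul, ← mul_assoc]
  exact mul_le_mul_of_nonneg_right (hR v u hv) (norm_nonneg _)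

/-- the average of the remainder tends to zero -/
lemma Dt.Rf_avg (H : Dt a m E X Φ) {g : ℝ → ℂ} (hg : DK1 g) :
    Tendsto (fun v : ℝ => ∫ u : ℝ, Rf a m E (v - u) * g u) atTop (𝓝 0) := by
  obtain ⟨C, hC, hR⟩ := H.Rf_le
  have hc := hg.cont
  have hRc := H.Rf_cont
  have h := tendsto_integral_filter_of_dominated_convergence (l := atTop) (μ := volume)
    (F := fun (v : ℝ) (u : ℝ) => Rf a m E (v - u) * g u) (f := fun _ => 0) (fun u : ℝ => C * (Real.exp (|u| / 2) * ‖g u‖))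
    (Eventually.of_forall fun v => (by fun_prop : Continuous fun u : ℝ => Rf a m E (v - u) * g u).aestronglyMeasurable)
    (by
      filter_upwards [eventually_ge_atTop 0] with v hv
      refine ae_of_all _ fun u => ?_
      rw [norm_mul, ← mul_assoc]
      exact mul_le_mul_of_nonneg_right (hR v u hv) (norm_nonneg _))
    ((g_int hg).const_mul C)
    (ae_of_all _ fun u => by
      have h1 : Tendsto (fun v : ℝ => v - u) atTop atTop := tendsto_atTop_add_const_right _ _ tendsto_id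
      have h2 := (H.Rf_lim.comp h1).mul_const (g u)
      rwa [zero_mul] at h2)
  simpa using h

lemma Dt.E_int (H : Dt a m E X Φ) {g : ℝ → ℂ} (hg : DK1 g) {v : ℝ} :
    Integrable (fun u : ℝ => (E (v - u) : ℂ) * g u) := by
  obtain ⟨K, hK, hE⟩ := H.E_le
  have hc := hg.cont
  have hEc := H.ct
  refine ((g_int hg).const_mul (K * Real.exp (|v| / 2))).mono' (by fun_prop) (ae_of_all _ fun u => ?_)
  rw [norm_mul, Complex.norm_real, Real.norm_eq_abs, ← mul_assoc]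
  refine mul_le_mul_of_nonneg_right ((hE _).trans ?_) (norm_nonneg _)
  rw [mul_assoc, ← Real.exp_add]
  refine mul_le_mul_of_nonneg_left (Real.exp_le_exp.2 ?_) hK
  have := abs_sub v u
  linarith

/-- the average of `E` -/
lemma Dt.conv_E (H : Dt a m E X Φ) {g : ℝ → ℂ} (hg : DK1 g) {v : ℝ} (hv : 0 ≤ v) :
    ∫ u : ℝ, (E (v - u) : ℂ) * g u = (∑' s : ℂ, (m s : ℂ) * hG a v (s - 1 / 2) * tr g (s - 1 / 2)) -
      ∫ u : ℝ, Rf a m E (v - u) * g u := by
  rw [← H.conv_Z hg v]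
  have e : ∀ u : ℝ, Zs a m (v - u) * g u = (E (v - u) : ℂ) * g u + Rf a m E (v - u) * g u := by
    intro u
    unfold Rf; ring
  simp_rw [e]
  rw [integral_add (H.E_int hg) (H.Rf_int hg hv)]
  ring

lemma Dt.kdk (H : Dt a m E X Φ) : DK1 (fun u => (Φ u : ℂ)) := by
  obtain ⟨c, C, hc, hC, hb⟩ := H.kb
  refine ⟨Complex.continuous_ofReal.comp H.kc, C, hC.le, fun v => ?_⟩
  have h1 := W1_pos v
  rw [Complex.norm_real, Real.norm_of_nonneg ((by positivity : 0 ≤ c * W1 v).trans (hb v).1)]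
  exact (hb v).2

lemma Dt.kpos (H : Dt a m E X Φ) (u : ℝ) : 0 < Φ u := by
  obtain ⟨c, C, hc, hC, hb⟩ := H.kb
  exact lt_of_lt_of_le (mul_pos hc (W1_pos u)) (hb u).1

/-- the average of `E` against the positive kernel tends to zero -/
lemma Dt.mean_zero (H : Dt a m E X Φ) : Tendsto (fun v : ℝ => ∫ u : ℝ, E (v - u) * Φ u) atTop (𝓝 0) := by
  have h := H.Rf_avg H.kdk
  have h2 : ∀ᶠ v : ℝ in atTop, -(∫ u : ℝ, Rf a m E (v - u) * (Φ u : ℂ)) = ((∫ u : ℝ, E (v - u) * Φ u : ℝ) : ℂ) := by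
    filter_upwards [eventually_ge_atTop 0] with v hv
    have h3 := H.conv_E H.kdk hv
    have h4 : ∑' s : ℂ, (m s : ℂ) * hG a v (s - 1 / 2) * tr (fun u => (Φ u : ℂ)) (s - 1 / 2) = 0 := by
      rw [tsum_congr (g := fun _ => (0:ℂ)), tsum_zero]
      intro s
      by_cases hs : m s = 0
      · rw [hs]; simp
      · have hre := H.strip s hs
        rw [H.kt (s - 1 / 2) (by
          have : (s - 1 / 2 : ℂ).re = s.re - 1 / 2 := by simp
          rw [this]; linarith), (H.zero s).1 hs, mul_zero]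
    rw [h4, zero_sub] at h3
    rw [← h3, ← integral_complex_ofReal]
    refine integral_congr_ae (ae_of_all _ fun u => ?_)
    simp
  have h5 : Tendsto (fun v : ℝ => ((∫ u : ℝ, E (v - u) * Φ u : ℝ) : ℂ)) atTop (𝓝 0) := by
    have := h.neg
    rw [neg_zero] at this
    exact this.congr' h2
  have h6 := (Complex.continuous_re.tendsto 0).comp h5
  simpa [Function.comp_def] using h6

lemma Dt.part_int (H : Dt a m E X Φ) {s : ℝ} (hs : s = 1 ∨ s = -1) (v : ℝ) :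
    Integrable (fun u : ℝ => max (s * E (v - u)) 0 * Φ u) := by
  have hEc := H.ct
  have hkc := H.kc
  refine (H.E_int H.kdk (v := v)).norm.mono' (by fun_prop) (ae_of_all _ fun u => ?_)
  rw [norm_mul, norm_mul, Complex.norm_real, Complex.norm_real, Real.norm_eq_abs (max _ _)]
  refine mul_le_mul_of_nonneg_right ?_ (norm_nonneg _)
  exact part_le s hs _

/-- **one-sided averages are large** -/
theorem Dt.lower0 (H : Dt a m E X Φ) {s₀ : ℂ} (hs₀ : m s₀ ≠ 0) (hpos : 1 / 2 ≤ s₀.re) :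
    ∃ c : ℝ, 0 < c ∧ ∀ᶠ v : ℝ in atTop, ∀ s : ℝ, s = 1 ∨ s = -1 →
      c * Real.exp ((s₀.re - 1 / 2) * v) ≤ ∫ u : ℝ, max (s * E (v - u)) 0 * Φ u := by
  have hst := H.strip s₀ hs₀
  have hw0 : (s₀ - 1 / 2 : ℂ).re = s₀.re - 1 / 2 := by simp
  obtain ⟨g, hg, hg0, hgz⟩ := isolate H.kdk H.kt (w₀ := s₀ - 1 / 2) (by rw [hw0]; exact hst) (H.an _) (H.fin _)
  obtain ⟨Cg, hCg, hgb⟩ := hg.bd
  obtain ⟨c, C, hc, hC, hb⟩ := H.kb
  have hcg := hg.cont
  have hEc := H.ct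
  have hkc := H.kc
  set B : ℝ := Cg / c + 1 with hB
  have hB0 : 0 < B := by positivity
  have hgΦ : ∀ u, ‖g u‖ ≤ B * Φ u := by
    intro u
    have h1 := (hb u).1
    have h2 := W1_pos u
    have h3 : Cg * W1 u = Cg / c * (c * W1 u) := by field_simp
    have h4 : Cg / c * (c * W1 u) ≤ Cg / c * Φ u := mul_le_mul_of_nonneg_left h1 (by positivity)
    have h5 := H.kpos u
    rw [hB, add_mul, one_mul]
    linarith [hgb u]
  set A : ℂ := (m s₀ : ℂ) * hG a 0 (s₀ - 1 / 2) * tr g (s₀ - 1 / 2) with hA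
  have hA0 : 0 < ‖A‖ := norm_pos_iff.2 (mul_ne_zero (mul_ne_zero (Nat.cast_ne_zero.2 hs₀) (Complex.exp_ne_zero _)) hg0)
  have hsingle : ∀ v : ℝ, ‖∑' s : ℂ, (m s : ℂ) * hG a v (s - 1 / 2) * tr g (s - 1 / 2)‖ =
      ‖A‖ * Real.exp ((s₀.re - 1 / 2) * v) := by
    intro v
    rw [tsum_eq_single s₀]
    · have e1 : ‖A‖ = ‖(m s₀ : ℂ) * hG a 0 (s₀ - 1 / 2)‖ * ‖tr g (s₀ - 1 / 2)‖ := by rw [hA, norm_mul]
      rw [norm_mul, term_norm, e1, mul_comm v]
      ring
    · intro s hne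
      by_cases hs : m s = 0
      · rw [hs]; simp
      · have hre := H.strip s hs
        rw [hgz (s - 1 / 2) (by
          have : (s - 1 / 2 : ℂ).re = s.re - 1 / 2 := by simp
          rw [this]; linarith) (fun h => hne (by linear_combination h)) ((H.zero s).1 hs), mul_zero]
  have h1 := H.Rf_avg hg
  have h2 := H.mean_zero
  rw [tendsto_zero_iff_norm_tendsto_zero] at h1 h2
  have h3 := h1.eventually (gt_mem_nhds (show 0 < ‖A‖ / 2 by positivity))
  have h4 := h2.eventually (gt_mem_nhds (show 0 < ‖A‖ / (4 * B) by positivity))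
  refine ⟨‖A‖ / (8 * B), by positivity, ?_⟩
  filter_upwards [h3, h4, eventually_ge_atTop 0] with v h3 h4 hv s hs
  have hex : 1 ≤ Real.exp ((s₀.re - 1 / 2) * v) := Real.one_le_exp (mul_nonneg (by linarith) hv)
  have h5 := H.conv_E hg hv
  have h6 : ‖A‖ * Real.exp ((s₀.re - 1 / 2) * v) - ‖A‖ / 2 ≤ ‖∫ u : ℝ, (E (v - u) : ℂ) * g u‖ := by
    rw [h5, ← hsingle v]
    have := norm_sub_norm_le (∑' s : ℂ, (m s : ℂ) * hG a v (s - 1 / 2) * tr g (s - 1 / 2))
      (∫ u : ℝ, Rf a m E (v - u) * g u)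
    linarith
  have iA : Integrable (fun u : ℝ => |E (v - u)| * Φ u) := by
    refine (H.E_int H.kdk (v := v)).norm.congr (ae_of_all _ fun u => ?_)
    simp only
    rw [norm_mul, Complex.norm_real, Complex.norm_real, Real.norm_eq_abs, Real.norm_of_nonneg (H.kpos u).le]
  have iE : Integrable (fun u : ℝ => E (v - u) * Φ u) := by
    refine iA.mono' (by fun_prop) (ae_of_all _ fun u => ?_)
    rw [norm_mul, Real.norm_eq_abs, Real.norm_of_nonneg (H.kpos u).le]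
  have iP := H.part_int hs v
  have h7 : ‖∫ u : ℝ, (E (v - u) : ℂ) * g u‖ ≤ B * ∫ u : ℝ, |E (v - u)| * Φ u := by
    rw [← integral_const_mul]
    refine norm_integral_le_of_norm_le (iA.const_mul B) (ae_of_all _ fun u => ?_)
    rw [norm_mul, Complex.norm_real, Real.norm_eq_abs]
    calc |E (v - u)| * ‖g u‖ ≤ |E (v - u)| * (B * Φ u) := mul_le_mul_of_nonneg_left (hgΦ u) (abs_nonneg _)
      _ = _ := by ring
  have h8 : ∫ u : ℝ, |E (v - u)| * Φ u = 2 * (∫ u : ℝ, max (s * E (v - u)) 0 * Φ u) - s * ∫ u : ℝ, E (v - u) * Φ u := by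
    rw [← integral_const_mul, ← integral_const_mul, ← integral_sub (iP.const_mul 2) (iE.const_mul s)]
    refine integral_congr_ae (ae_of_all _ fun u => ?_)
    simp only
    rw [part_id s hs (E (v - u))]
    ring
  have h9 : -(s * ∫ u : ℝ, E (v - u) * Φ u) ≤ ‖A‖ / (4 * B) := by
    refine le_trans (neg_le_abs _) ?_
    rw [abs_mul]
    have : |s| = 1 := by rcases hs with h | h <;> rw [h] <;> norm_num
    rw [this, one_mul, ← Real.norm_eq_abs]
    exact h4.le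
  have h10 : ‖A‖ / 2 * Real.exp ((s₀.re - 1 / 2) * v) ≤
      B * (2 * (∫ u : ℝ, max (s * E (v - u)) 0 * Φ u) + ‖A‖ / (4 * B)) := by
    have h11 : ‖A‖ / 2 * Real.exp ((s₀.re - 1 / 2) * v) ≤ ‖A‖ * Real.exp ((s₀.re - 1 / 2) * v) - ‖A‖ / 2 := by nlinarith
    refine h11.trans (h6.trans (h7.trans (mul_le_mul_of_nonneg_left ?_ hB0.le)))
    rw [h8]
    linarith
  have h12 : B * (‖A‖ / (4 * B)) = ‖A‖ / 4 := by field_simp
  rw [mul_add, h12] at h10
  have h13 : ‖A‖ / 4 ≤ ‖A‖ / 4 * Real.exp ((s₀.re - 1 / 2) * v) := by nlinarith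
  have h14 : ‖A‖ / 4 * Real.exp ((s₀.re - 1 / 2) * v) ≤ B * (2 * (∫ u : ℝ, max (s * E (v - u)) 0 * Φ u)) := by linarith
  rw [div_mul_eq_mul_div, div_le_iff₀ (by positivity)]
  rw [div_mul_eq_mul_div, div_le_iff₀ (by norm_num)] at h14
  linarith

theorem Dt.lower (H : Dt a m E X Φ) {s₀ : ℂ} (hs₀ : m s₀ ≠ 0) :
    ∃ c : ℝ, 0 < c ∧ ∀ᶠ v : ℝ in atTop, ∀ s : ℝ, s = 1 ∨ s = -1 →
      c * Real.exp (|s₀.re - 1 / 2| * v) ≤ ∫ u : ℝ, max (s * E (v - u)) 0 * Φ u := by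
  rcases le_total (1 / 2) s₀.re with h | h
  · rw [abs_of_nonneg (by linarith)]
    exact H.lower0 hs₀ h
  · have h1 : m (1 - conj s₀) ≠ 0 := by rw [H.refl]; exact hs₀
    have h2 : (1 - conj s₀).re = 1 - s₀.re := by simp
    have h3 := H.lower0 h1 (by rw [h2]; linarith)
    rw [h2] at h3
    rw [abs_of_nonpos (by linarith), neg_sub]
    have e : 1 - s₀.re - 1 / 2 = 1 / 2 - s₀.re := by ring
    rwa [e] at h3

end

end Pool.Agent.E8helper62.RX
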