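import Pool.Agent.E8helper62.RX.Ker
import Pool.Agent.H128R3.JD.DelK

/-!
# The kernel `exp (6u) Δ(i exp u)`
-/

set_option autoImplicit false
set_option linter.unusedVariables false

open Complex MeasureTheory Filter Topology Set Metric

namespace Pool.Agent.E8helper62.RX

noncomputable section

open Pool.Agent.H128R3.JD.DelK

/-- lower bound for the discriminant -/
lemma Dl_ge : ∃ c : ℝ, 0 < c ∧ ∀ y : ℝ, 1 ≤ y → c * Real.exp (-2 * Real.pi * y) ≤ Dl y := by
  refine ⟨∏' n : ℕ, (1 - Real.exp (-2 * Real.pi * ((n : ℝ) + 1) * 1)) ^ 24, ?_, fun y hy => ?_⟩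
  · have h := Dl_pos one_pos
    unfold Dl at h
    exact (mul_pos_iff_of_pos_left (Real.exp_pos _)).1 h
  · unfold Dl
    rw [mul_comm]
    refine mul_le_mul_of_nonneg_left ?_ (Real.exp_pos _).le
    have hy0 : 0 < y := by linarith
    refine le_of_tendsto_of_tendsto' (mult one_pos).hasProd (mult hy0).hasProd fun S => ?_
    refine Finset.prod_le_prod (fun n _ => pow_nonneg (fac_pos one_pos n).1 _) fun n _ => ?_
    refine pow_le_pow_left₀ (fac_pos one_pos n).1 ?_ _
    have h1 : Real.exp (-2 * Real.pi * ((n : ℝ) + 1) * y) ≤ Real.exp (-2 * Real.pi * ((n : ℝ) + 1) * 1) := by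
      refine Real.exp_le_exp.2 ?_
      have h2 : 0 ≤ 2 * Real.pi * ((n : ℝ) + 1) := by
        have := Real.pi_pos
        positivity
      nlinarith
    linarith

/-- bounds for the kernel -/
lemma wk_bds : ∃ c C : ℝ, 0 < c ∧ 0 < C ∧ ∀ u, c * W1 u ≤ wk 1 u ∧ wk 1 u ≤ C * W1 u := by
  obtain ⟨c, hc, h⟩ := Dl_ge
  refine ⟨c, 1, hc, one_pos, fun u => ?_⟩
  have e : wk 1 u = wk 1 |u| := by
    rcases abs_choice u with h | h
    · rw [h]
    · rw [h, wk_even]
  have e2 : wk 1 |u| = Real.exp (6 * |u|) * Dl (Real.exp |u|) := by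
    unfold wk
    simp
  have e3 : W1 u = Real.exp (6 * |u|) * Real.exp (-2 * Real.pi * Real.exp |u|) := by
    unfold W1
    rw [← Real.exp_add]
    congr 1
    ring
  rw [e, e2, e3]
  have h1 := h (Real.exp |u|) (Real.one_le_exp (abs_nonneg u))
  have h2 := Dl_le (Real.exp_pos |u|)
  have h3 := Real.exp_pos (6 * |u|)
  constructor
  · calc c * (Real.exp (6 * |u|) * Real.exp (-2 * Real.pi * Real.exp |u|)) =
        Real.exp (6 * |u|) * (c * Real.exp (-2 * Real.pi * Real.exp |u|)) := by ring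
      _ ≤ _ := mul_le_mul_of_nonneg_left h1 h3.le
  · rw [one_mul]
    exact mul_le_mul_of_nonneg_left h2 h3.le

/-- the transform of the kernel -/
lemma tr_wk (w : ℂ) : tr (fun u => ((wk 1 u : ℝ) : ℂ)) w = mellin (fun y : ℝ => ((Dl y : ℝ) : ℂ)) (6 + w) := by
  have h := mellin_Dl one_pos w
  rw [Complex.ofReal_one, one_mul] at h
  rw [h]
  unfold tr
  rw [← integral_neg_eq_self]
  refine integral_congr_ae (ae_of_all _ fun t => ?_)
  simp only
  rw [wk_even, mul_comm]
  congr 2
  push_cast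
  ring

end

end Pool.Agent.E8helper62.RX
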