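import Pool.Agent.E8helper62.RX.Loc
import Pool.Agent.E8helper62.RX.Kn
import Pool.Agent.E8helper14.DL.Fin

/-!
# The discriminant is an instance
-/

set_option autoImplicit false
set_option linter.unusedVariables false

open Complex MeasureTheory Filter Topology Set Metric
open scoped ComplexConjugate

namespace Pool.Agent.E8helper62.RX

noncomputable section

open Pool.Agent.E8helper14.DL
open Pool.Agent.E8helper14.LI (hG gs KG psum_summable)
open Pool.Agent.E8helper66.ND (Ld Ld_mellin)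
open Pool.Agent.H128R3.JD.DelK (Dl wk wk_cont)

lemma XD_Ld (s : ℂ) : XD s = 2 * Ld (6 + (s - 1 / 2)) := by
  unfold XD
  congr 2
  ring

/-- the function as an even function of order less than two -/
lemma ev_Ld : ∃ (F : ℂ → ℂ) (K : ℝ), Pool.Agent.Y22.RX.Ev (fun w => Ld (6 + w)) F K := by
  obtain ⟨B, F, K, hB, hEv⟩ := Pool.Agent.Y22.RX.ev_delta
  have hX1 : Pool.Agent.H128R3.GJB.X1 (Pool.Agent.H128R3.JD.DelHk.hk B) = fun w => Ld (6 + w) := by
    funext z
    show mellin (fun y : ℝ => ((Dl y : ℝ) : ℂ)) ((((12 : ℝ) / 2 : ℝ) : ℂ) + z) = _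
    have h6 : (((12 : ℝ) / 2 : ℝ) : ℂ) = 6 := by
      push_cast
      norm_num
    rw [h6]
    rfl
  rw [hX1] at hEv
  exact ⟨F, K, hEv⟩

lemma ED_neg {a : ℝ} (ha : 0 < a) : ∃ C : ℝ, ∀ v, v ≤ 0 → |ED a v| ≤ C := by
  have hs := psum_summable ha (b := Pool.Agent.Y23.G.aL (L := LDel)) (Pool.Agent.Y23.G.aL_norm (L := LDel)) 0
  have hs2 : Summable fun n : ℕ => |ArithmeticFunction.vonMangoldt n * cD n * (n : ℝ) ^ (-(1 / 2) : ℝ)| *
      gs a (0 - Real.log n) := by
    refine hs.congr fun n => ?_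
    rw [aL_D, ← Complex.ofReal_mul, Complex.norm_real, Real.norm_eq_abs, abs_mul]
    congr 1
    exact abs_of_pos (Real.exp_pos _)
  have hK : 0 ≤ KG a := by unfold KG; positivity
  refine ⟨KG a * ∑' n : ℕ, |ArithmeticFunction.vonMangoldt n * cD n * (n : ℝ) ^ (-(1 / 2) : ℝ)| *
      gs a (0 - Real.log n), fun v hv => ?_⟩
  unfold ED
  rw [abs_neg, abs_mul, abs_of_nonneg hK]
  refine mul_le_mul_of_nonneg_left ?_ hK
  rw [← Real.norm_eq_abs]
  refine tsum_of_norm_bounded hs2.hasSum fun n => ?_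
  rw [norm_mul, Real.norm_eq_abs, Real.norm_of_nonneg (by unfold gs; positivity)]
  refine mul_le_mul_of_nonneg_left ?_ (abs_nonneg _)
  unfold gs
  refine Real.exp_le_exp.2 ?_
  have hl := Real.log_natCast_nonneg n
  rw [div_le_div_iff_of_pos_right (by positivity)]
  nlinarith

/-- **the discriminant is an instance** -/
theorem dt_D {a : ℝ} (ha : 0 < a) : Dt a mDel (ED a) (fun w => Ld (6 + w)) (wk 1) := by
  have hG := gn_D ha
  obtain ⟨F, K, hEv⟩ := ev_Ld
  refine ⟨fun s hs => ?_, hG.refl, hG.sum, hG.ct, ED_neg ha, hG.ef, fun s => ?_, fun w => ?_, fun w => ?_, wk_cont 1,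
    wk_bds, fun w hw => ?_⟩
  · have h1 := hG.strip s hs
    have h2 := hG.strip (1 - conj s) (by rw [hG.refl]; exact hs)
    simp at h2
    rw [abs_le]
    constructor <;> linarith
  · rw [mDel_ne, XD_Ld]
    simp
  · exact hEv.fdiff.analyticAt w
  · exact hEv.top w
  · rw [tr_wk]
    exact (Ld_mellin _).symm

/-- there is a zero -/
lemma ex_zero : ∃ z, Xg z = 0 := by
  obtain ⟨F, K, hEv⟩ := ev_Ld
  obtain ⟨w, hw⟩ := hEv.exists_zero
  refine ⟨-I * w, ?_⟩
  unfold Xg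
  have e : 6 + I * (-I * w) = 6 + w := by linear_combination (-w) * I_mul_I
  rw [e]
  exact hw

/-- the zeros in the two forms -/
lemma zero_pt {z : ℂ} (hz : Xg z = 0) : mDel (1 / 2 + I * z) ≠ 0 ∧ |(1 / 2 + I * z : ℂ).re - 1 / 2| = |z.im| := by
  constructor
  · rw [mDel_ne, XD_Xg, hz, mul_zero]
  · have e : (1 / 2 + I * z : ℂ).re - 1 / 2 = -z.im := by simp
    rw [e, abs_neg]

lemma zero_set : {t : ℝ | ∃ s : ℂ, mDel s ≠ 0 ∧ |s.re - 1 / 2| = t} = {t : ℝ | ∃ z : ℂ, Xg z = 0 ∧ |z.im| = t} := by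
  ext t
  constructor
  · rintro ⟨s, hs, rfl⟩
    refine ⟨-I * (s - 1 / 2), ?_, ?_⟩
    · have h1 := mDel_ne.1 hs
      rw [s_z s, XD_Xg] at h1
      exact (mul_eq_zero.1 h1).resolve_left two_ne_zero
    · have e : (-I * (s - 1 / 2) : ℂ).im = -(s.re - 1 / 2) := by simp
      rw [e, abs_neg]
  · rintro ⟨z, hz, rfl⟩
    exact ⟨_, (zero_pt hz).1, (zero_pt hz).2⟩

end

end Pool.Agent.E8helper62.RX
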