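import Pool.Agent.H313R3.TK.D

/-!
# Kernels with doubly exponential decay and the operator inverting `d/dt - ρ`
-/

set_option autoImplicit false
set_option linter.unusedVariables false

open Complex MeasureTheory Filter Topology Set Metric

namespace Pool.Agent.E8helper62.RX

noncomputable section

open H313.TK (int_exp_abs Ist norm_tw norm_tw' prim_cont Ist_cont tr_diff)

/-- the weight -/
def W1 (v : ℝ) : ℝ := Real.exp (6 * |v| - 2 * Real.pi * Real.exp |v|)

theorem W1_pos (v : ℝ) : 0 < W1 v := Real.exp_pos _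

theorem W1_cont : Continuous W1 := by unfold W1; fun_prop

theorem W1_dom' (v z : ℝ) (h : (z ≤ v ∧ v ≤ 0) ∨ (0 ≤ v ∧ v ≤ z)) :
    W1 z * Real.exp (2 * |v - z|) ≤ 4 * W1 v * Real.exp (-|v - z|) := by
  have hz : |z| = |v| + |v - z| := by
    rcases h with ⟨h1, h2⟩ | ⟨h1, h2⟩
    · rw [abs_of_nonpos (h1.trans h2), abs_of_nonpos h2, abs_of_nonneg (by linarith)]; ring
    · rw [abs_of_nonneg (h1.trans h2), abs_of_nonneg h1, abs_of_nonpos (by linarith)]; ring
  set x : ℝ := |v - z| with hx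
  have hx0 : 0 ≤ x := abs_nonneg _
  unfold W1
  have e2 : 4 * Real.exp (6 * |v| - 2 * Real.pi * Real.exp |v|) * Real.exp (-x) =
      4 * Real.exp (6 * |v| - 2 * Real.pi * Real.exp |v| + -x) := by rw [Real.exp_add]; ring
  rw [hz, ← Real.exp_add, e2]
  have h1 : Real.exp (|v| + x) = Real.exp |v| * Real.exp x := Real.exp_add _ _
  have h2 := Real.quadratic_le_exp_of_nonneg hx0
  have h3 : 1 ≤ Real.exp |v| := Real.one_le_exp (abs_nonneg _)
  have h4 := Real.pi_gt_three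
  have h5 : 3 * (x + x ^ 2 / 2) ≤ Real.pi * (Real.exp (|v| + x) - Real.exp |v|) := by
    rw [h1]
    have h6 : x + x ^ 2 / 2 ≤ Real.exp |v| * Real.exp x - Real.exp |v| := by nlinarith
    have h7 : 0 ≤ x + x ^ 2 / 2 := by positivity
    nlinarith
  have h8 : 6 * (|v| + x) - 2 * Real.pi * Real.exp (|v| + x) + 2 * x ≤
      3 / 4 + (6 * |v| - 2 * Real.pi * Real.exp |v| + -x) := by nlinarith [sq_nonneg (x - 1 / 2)]
  have h9 : Real.exp (3 / 4) ≤ 4 := by
    have := Real.exp_one_lt_d9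
    have h : Real.exp (3 / 4) ≤ Real.exp 1 := Real.exp_le_exp.2 (by norm_num)
    linarith
  calc Real.exp (6 * (|v| + x) - 2 * Real.pi * Real.exp (|v| + x) + 2 * x) ≤
      Real.exp (3 / 4 + (6 * |v| - 2 * Real.pi * Real.exp |v| + -x)) := Real.exp_le_exp.2 h8
    _ = Real.exp (3 / 4) * Real.exp (6 * |v| - 2 * Real.pi * Real.exp |v| + -x) := Real.exp_add _ _
    _ ≤ _ := mul_le_mul_of_nonneg_right h9 (Real.exp_pos _).le

theorem W1_zero_le : W1 0 ≤ 1 := by
  unfold W1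
  rw [Real.exp_le_one_iff]
  have := Real.pi_pos
  simp
  positivity

theorem W1_decay (z : ℝ) : W1 z * Real.exp (2 * |z|) ≤ 4 * Real.exp (-|z|) := by
  have h1 : W1 z * Real.exp (2 * |0 - z|) ≤ 4 * W1 0 * Real.exp (-|0 - z|) := by
    rcases le_total z 0 with h | h
    · exact W1_dom' 0 z (Or.inl ⟨h, le_rfl⟩)
    · exact W1_dom' 0 z (Or.inr ⟨le_rfl, h⟩)
  rw [zero_sub, abs_neg] at h1
  refine h1.trans ?_
  have := W1_zero_le
  have h2 := Real.exp_pos (-|z|)
  nlinarith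

theorem W1_le (z : ℝ) : W1 z ≤ 4 * Real.exp (-(3 * |z|)) := by
  have h4 : W1 z = W1 z * Real.exp (2 * |z|) * Real.exp (-(2 * |z|)) := by
    rw [mul_assoc, ← Real.exp_add, add_neg_cancel, Real.exp_zero, mul_one]
  rw [h4]
  calc W1 z * Real.exp (2 * |z|) * Real.exp (-(2 * |z|)) ≤ 4 * Real.exp (-|z|) * Real.exp (-(2 * |z|)) :=
        mul_le_mul_of_nonneg_right (W1_decay z) (Real.exp_pos _).le
    _ = _ := by rw [mul_assoc, ← Real.exp_add]; congr 2; ring

/-- the tail of the weight against exponential growth -/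
theorem W1_tail {v u : ℝ} (hv : 0 < v) (hu : Real.log v ≤ |u|) :
    Real.exp (v / 2 + |u| / 2) * W1 u ≤ 4 * (v⁻¹ * Real.exp (-(1 * |u|))) := by
  have h1 : v ≤ Real.exp |u| := by rwa [← Real.log_le_iff_le_exp hv]
  have hx0 := abs_nonneg u
  have h2 := Real.quadratic_le_exp_of_nonneg hx0
  have h3 : v⁻¹ = Real.exp (-Real.log v) := by rw [Real.exp_neg, Real.exp_log hv]
  have h4 := Real.pi_gt_three
  unfold W1
  rw [h3, ← Real.exp_add, ← Real.exp_add]
  have h9 : Real.exp 1 ≤ 4 := by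
    have := Real.exp_one_lt_d9
    linarith
  have h5 : v / 2 + |u| / 2 + (6 * |u| - 2 * Real.pi * Real.exp |u|) ≤ 1 + (-Real.log v + -(1 * |u|)) := by
    have hp := Real.exp_pos |u|
    have h6 : 2 * 3 * Real.exp |u| ≤ 2 * Real.pi * Real.exp |u| := by nlinarith
    nlinarith [sq_nonneg (|u| - 1)]
  calc Real.exp (v / 2 + |u| / 2 + (6 * |u| - 2 * Real.pi * Real.exp |u|)) ≤
      Real.exp (1 + (-Real.log v + -(1 * |u|))) := Real.exp_le_exp.2 h5
    _ = Real.exp 1 * Real.exp (-Real.log v + -(1 * |u|)) := Real.exp_add _ _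
    _ ≤ _ := mul_le_mul_of_nonneg_right h9 (Real.exp_pos _).le

/-- kernels dominated by the weight -/
structure DK1 (g : ℝ → ℂ) : Prop where
  cont : Continuous g
  bd : ∃ C : ℝ, 0 ≤ C ∧ ∀ v, ‖g v‖ ≤ C * W1 v

/-- the transform -/
def tr (g : ℝ → ℂ) (w : ℂ) : ℂ := ∫ v : ℝ, cexp (-w * v) * g v

theorem DK1.bd' {g : ℝ → ℂ} (hg : DK1 g) : ∃ C : ℝ, 0 ≤ C ∧ ∀ v, ‖g v‖ ≤ C * Real.exp (-(3 * |v|)) := by
  obtain ⟨C, hC, hb⟩ := hg.bd
  refine ⟨C * 4, by positivity, fun v => (hb v).trans ?_⟩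
  rw [mul_assoc]
  exact mul_le_mul_of_nonneg_left (W1_le v) hC

theorem tw_int {g : ℝ → ℂ} (hg : DK1 g) (ρ : ℂ) (hβ : |ρ.re| ≤ 2) :
    Integrable (fun z : ℝ => cexp (-ρ * z) * g z) := by
  obtain ⟨C, hC, hb⟩ := hg.bd'
  have hc := hg.cont
  refine (((int_exp_abs 1 one_pos).const_mul C)).mono' ?_ (ae_of_all _ fun z => ?_)
  · exact (by fun_prop : Continuous fun z : ℝ => cexp (-ρ * z) * g z).aestronglyMeasurable
  · rw [norm_mul, norm_tw, one_mul]
    have h1 : Real.exp (-ρ.re * z) ≤ Real.exp (2 * |z|) := by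
      refine Real.exp_le_exp.2 ?_
      calc -ρ.re * z ≤ |-ρ.re * z| := le_abs_self _
        _ = |ρ.re| * |z| := by rw [abs_mul, abs_neg]
        _ ≤ 2 * |z| := mul_le_mul_of_nonneg_right hβ (abs_nonneg _)
    calc Real.exp (-ρ.re * z) * ‖g z‖ ≤ Real.exp (2 * |z|) * (C * Real.exp (-(3 * |z|))) :=
          mul_le_mul h1 (hb z) (norm_nonneg _) (Real.exp_pos _).le
      _ = C * (Real.exp (2 * |z|) * Real.exp (-(3 * |z|))) := by ring
      _ = _ := by rw [← Real.exp_add]; congr 2; ring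

/-- the operator preserves domination when the moment vanishes -/
theorem Ist_DK1 {g : ℝ → ℂ} (hg : DK1 g) (ρ : ℂ) (hβ : |ρ.re| ≤ 2) (h0 : tr g ρ = 0) : DK1 (Ist ρ g) := by
  have hi := tw_int hg ρ hβ
  obtain ⟨C, hC, hb⟩ := hg.bd
  refine ⟨Ist_cont hg.cont fun v => hi.integrableOn, ?_⟩
  set D : ℝ := ∫ x : ℝ, Real.exp (-(1 * |x|)) with hD
  have hD0 : 0 ≤ D := integral_nonneg fun x => (Real.exp_pos _).le
  have hDv : ∀ v : ℝ, ∫ z : ℝ, Real.exp (-(1 * |v - z|)) = D := by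
    intro v
    exact integral_sub_left_eq_self (fun x => Real.exp (-(1 * |x|))) volume v
  have hDi : ∀ v : ℝ, Integrable (fun z : ℝ => Real.exp (-(1 * |v - z|))) :=
    fun v => (int_exp_abs 1 one_pos).comp_sub_left v
  have hpt : ∀ v z : ℝ, ((z ≤ v ∧ v ≤ 0) ∨ (0 ≤ v ∧ v ≤ z)) →
      ‖cexp (ρ * v) * (cexp (-ρ * z) * g z)‖ ≤ 4 * C * W1 v * Real.exp (-(1 * |v - z|)) := by
    intro v z h
    rw [norm_mul, norm_mul, norm_tw, norm_tw', one_mul, ← mul_assoc, ← Real.exp_add]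
    have h1 : Real.exp (ρ.re * v + -ρ.re * z) ≤ Real.exp (2 * |v - z|) := by
      refine Real.exp_le_exp.2 ?_
      calc ρ.re * v + -ρ.re * z = ρ.re * (v - z) := by ring
        _ ≤ |ρ.re * (v - z)| := le_abs_self _
        _ = |ρ.re| * |v - z| := abs_mul _ _
        _ ≤ 2 * |v - z| := mul_le_mul_of_nonneg_right hβ (abs_nonneg _)
    calc Real.exp (ρ.re * v + -ρ.re * z) * ‖g z‖ ≤ Real.exp (2 * |v - z|) * (C * W1 z) :=
          mul_le_mul h1 (hb z) (norm_nonneg _) (Real.exp_pos _).le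
      _ = C * (W1 z * Real.exp (2 * |v - z|)) := by ring
      _ ≤ C * (4 * W1 v * Real.exp (-|v - z|)) := mul_le_mul_of_nonneg_left (W1_dom' v z h) hC
      _ = _ := by ring
  refine ⟨4 * C * D, by positivity, fun v => ?_⟩
  have hfin : ∀ S : Set ℝ, MeasurableSet S → (∀ z ∈ S, (z ≤ v ∧ v ≤ 0) ∨ (0 ≤ v ∧ v ≤ z)) →
      ‖cexp (ρ * v) * ∫ z in S, cexp (-ρ * z) * g z‖ ≤ 4 * C * D * W1 v := by
    intro S hS hcond
    rw [← integral_const_mul]
    refine (norm_integral_le_of_norm_le (g := fun z => 4 * C * W1 v * Real.exp (-(1 * |v - z|)))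
      ((hDi v).const_mul _).integrableOn ?_).trans ?_
    · exact (ae_restrict_iff' hS).2 (ae_of_all _ fun z hz => hpt v z (hcond z hz))
    · refine (setIntegral_le_integral ((hDi v).const_mul _) (ae_of_all _ fun z => ?_)).trans ?_
      · have := W1_pos v
        show 0 ≤ 4 * C * W1 v * Real.exp (-(1 * |v - z|))
        positivity
      · rw [integral_const_mul, hDv]
        exact le_of_eq (by ring)
  rcases le_total v 0 with hv | hv
  · exact hfin (Iic v) measurableSet_Iic fun z hz => Or.inl ⟨hz, hv⟩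
  · have h1 := intervalIntegral.integral_Iic_add_Ioi (b := v) hi.integrableOn hi.integrableOn
    have h0' : ∫ z : ℝ, cexp (-ρ * z) * g z = 0 := h0
    rw [h0'] at h1
    have h2 : Ist ρ g v = -(cexp (ρ * v) * ∫ z in Ioi v, cexp (-ρ * z) * g z) := by
      unfold Ist
      rw [eq_neg_of_add_eq_zero_left h1]
      ring
    rw [h2, norm_neg]
    exact hfin (Ioi v) measurableSet_Ioi fun z hz => Or.inr ⟨hv, le_of_lt hz⟩

/-- the derivative of the new kernel -/
theorem Ist_deriv {g : ℝ → ℂ} (hg : DK1 g) (ρ : ℂ) (hβ : |ρ.re| ≤ 2) (v : ℝ) :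
    HasDerivAt (Ist ρ g) (ρ * Ist ρ g v + g v) v := by
  have hi := tw_int hg ρ hβ
  have hcont : Continuous fun z : ℝ => cexp (-ρ * z) * g z := by
    have := hg.cont
    fun_prop
  have h1 := prim_cont hcont (fun v => hi.integrableOn) v
  have h2 : HasDerivAt (fun v : ℝ => cexp (ρ * v)) (ρ * cexp (ρ * v)) v := by
    have h3 : HasDerivAt (fun v : ℝ => ρ * (v : ℂ)) ρ v := by
      simpa using ((hasDerivAt_id v).ofReal_comp).const_mul ρ
    refine h3.cexp.congr_deriv ?_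
    ring
  refine (h2.mul h1).congr_deriv ?_
  unfold Ist
  have h4 : cexp (ρ * v) * (cexp (-ρ * v) * g v) = g v := by
    rw [← mul_assoc, ← Complex.exp_add, show ρ * (v : ℂ) + -ρ * v = 0 by ring, Complex.exp_zero, one_mul]
  rw [h4]
  ring

/-- the transform of the new kernel -/
theorem tr_Ist {g : ℝ → ℂ} (hg : DK1 g) (ρ : ℂ) (hβ : |ρ.re| ≤ 2) (h0 : tr g ρ = 0) (w : ℂ) (hw : |w.re| ≤ 2) :
    (w - ρ) * tr (Ist ρ g) w = tr g w := by
  have hD := Ist_DK1 hg ρ hβ h0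
  have hi := tw_int hD w hw
  have hig := tw_int hg w hw
  have hc := hD.cont
  have hcg := hg.cont
  have h1 : ∀ v : ℝ, HasDerivAt (fun v : ℝ => cexp (-w * v)) (-w * cexp (-w * v)) v := by
    intro v
    have h3 : HasDerivAt (fun v : ℝ => -w * (v : ℂ)) (-w) v := by
      simpa using ((hasDerivAt_id v).ofReal_comp).const_mul (-w)
    refine h3.cexp.congr_deriv ?_
    ring
  have key := integral_mul_deriv_eq_deriv_mul_of_integrable (u := fun v : ℝ => cexp (-w * v))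
    (u' := fun v : ℝ => -w * cexp (-w * v)) (v := Ist ρ g) (v' := fun v => ρ * Ist ρ g v + g v)
    (fun v _ => h1 v) (fun v _ => Ist_deriv hg ρ hβ v)
    (by
      refine ((hi.const_mul ρ).add hig).congr (ae_of_all _ fun v => ?_)
      simp only [Pi.mul_apply, Pi.add_apply]
      ring)
    (by
      refine (hi.const_mul (-w)).congr (ae_of_all _ fun v => ?_)
      simp only [Pi.mul_apply]
      ring)
    (by
      refine hi.congr (ae_of_all _ fun v => ?_)
      simp only [Pi.mul_apply])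
  have e1 : ∫ v : ℝ, cexp (-w * v) * (ρ * Ist ρ g v + g v) = ρ * tr (Ist ρ g) w + tr g w := by
    unfold tr
    rw [← integral_const_mul, ← integral_add (hi.const_mul ρ) hig]
    refine integral_congr_ae (ae_of_all _ fun v => ?_)
    simp only
    ring
  have e2 : ∫ v : ℝ, -w * cexp (-w * v) * Ist ρ g v = -w * tr (Ist ρ g) w := by
    unfold tr
    rw [← integral_const_mul]
    refine integral_congr_ae (ae_of_all _ fun v => ?_)
    simp only
    ring
  rw [e1, e2] at key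
  linear_combination -key

theorem tr_contAt {g : ℝ → ℂ} (hg : DK1 g) {w : ℂ} (hw : |w.re| < 3) : ContinuousAt (tr g) w := by
  obtain ⟨C, hC, hb⟩ := hg.bd'
  exact (tr_diff hg.cont C 3 hC hb w hw).continuousAt

/-- **a kernel that isolates one zero** -/
theorem isolate {X : ℂ → ℂ} {g₀ : ℝ → ℂ} (hg₀ : DK1 g₀) (htr : ∀ w : ℂ, |w.re| ≤ 2 → tr g₀ w = X w) {w₀ : ℂ}
    (hw₀ : |w₀.re| ≤ 1 / 2) (hX : AnalyticAt ℂ X w₀) (hfin : analyticOrderAt X w₀ ≠ ⊤) :
    ∃ g : ℝ → ℂ, DK1 g ∧ tr g w₀ ≠ 0 ∧ ∀ w : ℂ, |w.re| ≤ 2 → w ≠ w₀ → X w = 0 → tr g w = 0 := by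
  obtain ⟨n, hn⟩ := ENat.ne_top_iff_exists.1 hfin
  obtain ⟨G, hG, hG0, hev⟩ := (hX.analyticOrderAt_eq_natCast).1 hn.symm
  have hstrip : ∀ᶠ w in 𝓝 w₀, |w.re| ≤ 2 := by
    have : ContinuousAt (fun w : ℂ => |w.re|) w₀ := by fun_prop
    filter_upwards [this.eventually (gt_mem_nhds (show |w₀.re| < 2 by linarith))] with w hw
    exact le_of_lt hw
  have key : ∀ k : ℕ, k ≤ n → ∃ g : ℝ → ℂ, DK1 g ∧ ∀ w : ℂ, |w.re| ≤ 2 → (w - w₀) ^ k * tr g w = X w := by
    intro k
    induction k with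
    | zero => exact fun _ => ⟨g₀, hg₀, fun w hw => by rw [pow_zero, one_mul, htr w hw]⟩
    | succ k ih =>
      intro hk
      obtain ⟨g, hg, hgw⟩ := ih (by omega)
      have h1 : ∀ᶠ w in 𝓝[≠] w₀, tr g w = (w - w₀) ^ (n - k) * G w := by
        filter_upwards [hev.filter_mono nhdsWithin_le_nhds, hstrip.filter_mono nhdsWithin_le_nhds,
          self_mem_nhdsWithin] with w h1 h2 h3
        have h4 : w - w₀ ≠ 0 := sub_ne_zero.2 h3
        have h5 := hgw w h2
        rw [h1, smul_eq_mul] at h5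
        have h6 : (w - w₀) ^ n = (w - w₀) ^ k * (w - w₀) ^ (n - k) := by
          rw [← pow_add]; congr 1; omega
        rw [h6, mul_assoc] at h5
        exact mul_left_cancel₀ (pow_ne_zero k h4) h5
      have h2 : Tendsto (tr g) (𝓝[≠] w₀) (𝓝 (tr g w₀)) :=
        (tr_contAt hg (by linarith)).tendsto.mono_left nhdsWithin_le_nhds
      have h3 : Tendsto (fun w => (w - w₀) ^ (n - k) * G w) (𝓝[≠] w₀) (𝓝 ((w₀ - w₀) ^ (n - k) * G w₀)) := by
        have : ContinuousAt (fun w => (w - w₀) ^ (n - k) * G w) w₀ :=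
          ((continuousAt_id.sub continuousAt_const).pow _).mul hG.continuousAt
        exact this.tendsto.mono_left nhdsWithin_le_nhds
      have h4 : tr g w₀ = 0 := by
        have h5 := tendsto_nhds_unique h2 (h3.congr' (h1.mono fun w hw => hw.symm))
        rw [h5, sub_self, zero_pow (by omega), zero_mul]
      refine ⟨Ist w₀ g, Ist_DK1 hg w₀ (by linarith) h4, fun w hw => ?_⟩
      rw [pow_succ, mul_assoc, tr_Ist hg w₀ (by linarith) h4 w hw]
      exact hgw w hw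
  obtain ⟨g, hg, hgw⟩ := key n le_rfl
  refine ⟨g, hg, ?_, fun w hw hne hz => ?_⟩
  · have h1 : ∀ᶠ w in 𝓝[≠] w₀, tr g w = G w := by
      filter_upwards [hev.filter_mono nhdsWithin_le_nhds, hstrip.filter_mono nhdsWithin_le_nhds,
        self_mem_nhdsWithin] with w h1 h2 h3
      have h4 : w - w₀ ≠ 0 := sub_ne_zero.2 h3
      have h5 := hgw w h2
      rw [h1, smul_eq_mul] at h5
      exact mul_left_cancel₀ (pow_ne_zero n h4) h5
    have h2 : Tendsto (tr g) (𝓝[≠] w₀) (𝓝 (tr g w₀)) :=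
      (tr_contAt hg (by linarith)).tendsto.mono_left nhdsWithin_le_nhds
    have h3 : Tendsto G (𝓝[≠] w₀) (𝓝 (G w₀)) := hG.continuousAt.tendsto.mono_left nhdsWithin_le_nhds
    rw [tendsto_nhds_unique h2 (h3.congr' (h1.mono fun w hw => hw.symm))]
    exact hG0
  · have h1 := hgw w hw
    rw [hz] at h1
    rcases mul_eq_zero.1 h1 with h2 | h2
    · exact absurd h2 (pow_ne_zero n (sub_ne_zero.2 hne))
    · exact h2

end

end Pool.Agent.E8helper62.RX
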