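import Pool.Agent.E8helper62.RX.Av

/-!
# Windows of logarithmic length
-/

set_option autoImplicit false
set_option linter.unusedVariables false

open Complex MeasureTheory Filter Topology Set Metric
open scoped ComplexConjugate

namespace Pool.Agent.E8helper62.RX

noncomputable section

open H313.TK (int_exp_abs norm_tw part_id part_le refl_Icc)
open Pool.Agent.E8helper14.LI (hG)

variable {a : ℝ} {m : ℂ → ℕ} {E : ℝ → ℝ} {X : ℂ → ℂ} {Φ : ℝ → ℝ}

lemma Dt.absE_int (H : Dt a m E X Φ) (v : ℝ) : Integrable (fun u : ℝ => |E (v - u)| * Φ u) := by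
  refine (H.E_int H.kdk (v := v)).norm.congr (ae_of_all _ fun u => ?_)
  simp only
  rw [norm_mul, Complex.norm_real, Complex.norm_real, Real.norm_eq_abs, Real.norm_of_nonneg (H.kpos u).le]

/-- the tail of the average -/
lemma Dt.tail (H : Dt a m E X Φ) : ∃ T : ℝ, 0 ≤ T ∧ ∀ v : ℝ, 1 ≤ v →
    ∫ u in (Icc (-Real.log v) (Real.log v))ᶜ, |E (v - u)| * Φ u ≤ T * v⁻¹ := by
  obtain ⟨K, hK, hE⟩ := H.E_le
  obtain ⟨c, C, hc, hC, hb⟩ := H.kb
  set D : ℝ := ∫ x : ℝ, Real.exp (-(1 * |x|)) with hD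
  have hD0 : 0 ≤ D := integral_nonneg fun x => (Real.exp_pos _).le
  refine ⟨K * C * 4 * D, by positivity, fun v hv => ?_⟩
  have hpt : ∀ u ∈ (Icc (-Real.log v) (Real.log v))ᶜ,
      |E (v - u)| * Φ u ≤ K * C * 4 * v⁻¹ * Real.exp (-(1 * |u|)) := by
    intro u hu
    have hu2 : Real.log v ≤ |u| := by
      by_contra h
      rw [not_le] at h
      exact hu (abs_le.1 h.le)
    have h1 := W1_tail (by linarith : 0 < v) hu2
    have h2 : |E (v - u)| ≤ K * Real.exp (v / 2 + |u| / 2) := by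
      refine (hE _).trans (mul_le_mul_of_nonneg_left (Real.exp_le_exp.2 ?_) hK)
      have := abs_sub v u
      rw [abs_of_nonneg (by linarith : (0:ℝ) ≤ v)] at this
      linarith
    calc |E (v - u)| * Φ u ≤ (K * Real.exp (v / 2 + |u| / 2)) * (C * W1 u) :=
          mul_le_mul h2 (hb u).2 (H.kpos u).le (by positivity)
      _ = K * C * (Real.exp (v / 2 + |u| / 2) * W1 u) := by ring
      _ ≤ K * C * (4 * (v⁻¹ * Real.exp (-(1 * |u|)))) := mul_le_mul_of_nonneg_left h1 (by positivity)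
      _ = _ := by ring
  have hi : Integrable fun u : ℝ => K * C * 4 * v⁻¹ * Real.exp (-(1 * |u|)) := (int_exp_abs 1 one_pos).const_mul _
  have hv0 : 0 < v := by linarith
  calc ∫ u in (Icc (-Real.log v) (Real.log v))ᶜ, |E (v - u)| * Φ u ≤
      ∫ u in (Icc (-Real.log v) (Real.log v))ᶜ, K * C * 4 * v⁻¹ * Real.exp (-(1 * |u|)) :=
        setIntegral_mono_on (H.absE_int v).integrableOn hi.integrableOn measurableSet_Icc.compl hpt
    _ ≤ ∫ u, K * C * 4 * v⁻¹ * Real.exp (-(1 * |u|)) :=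
        setIntegral_le_integral hi (ae_of_all _ fun u => by
          show 0 ≤ K * C * 4 * v⁻¹ * Real.exp (-(1 * |u|))
          positivity)
    _ = _ := by rw [integral_const_mul, ← hD]; ring

/-- the average over the window -/
theorem Dt.win (H : Dt a m E X Φ) {s₀ : ℂ} (hs₀ : m s₀ ≠ 0) :
    ∃ c : ℝ, 0 < c ∧ ∀ᶠ v : ℝ in atTop, ∀ s : ℝ, s = 1 ∨ s = -1 →
      c * Real.exp (|s₀.re - 1 / 2| * v) ≤
        ∫ u in Icc (-Real.log v) (Real.log v), max (s * E (v - u)) 0 * Φ u := by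
  obtain ⟨c, hc, h⟩ := H.lower hs₀
  obtain ⟨T, hT, ht⟩ := H.tail
  refine ⟨c / 2, by positivity, ?_⟩
  have h2 : Tendsto (fun v : ℝ => T * v⁻¹) atTop (𝓝 0) := by
    simpa using tendsto_inv_atTop_zero.const_mul T
  filter_upwards [h, h2.eventually (gt_mem_nhds (show 0 < c / 2 by positivity)), eventually_ge_atTop (1:ℝ)] with v h1 h3 hv s hs
  have h4 := h1 s hs
  have iP := H.part_int hs v
  rw [← integral_add_compl (measurableSet_Icc (a := -Real.log v) (b := Real.log v)) iP] at h4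
  have h5 : ∫ u in (Icc (-Real.log v) (Real.log v))ᶜ, max (s * E (v - u)) 0 * Φ u ≤ T * v⁻¹ := by
    refine le_trans (setIntegral_mono_on iP.integrableOn (H.absE_int v).integrableOn measurableSet_Icc.compl
      fun u hu => ?_) (ht v hv)
    exact mul_le_mul_of_nonneg_right ((le_abs_self _).trans (part_le s hs (E (v - u)))) (H.kpos u).le
  have h6 : 1 ≤ Real.exp (|s₀.re - 1 / 2| * v) := Real.one_le_exp (by positivity)
  nlinarith

/-- mean values over the window -/
theorem Dt.L1 (H : Dt a m E X Φ) {s₀ : ℂ} (hs₀ : m s₀ ≠ 0) :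
    ∃ c : ℝ, 0 < c ∧ ∀ᶠ v : ℝ in atTop, ∀ s : ℝ, s = 1 ∨ s = -1 →
      c * Real.exp (|s₀.re - 1 / 2| * v) ≤ ∫ u in (v - Real.log v)..(v + Real.log v), max (s * E u) 0 := by
  obtain ⟨c, hc, h⟩ := H.win hs₀
  obtain ⟨c', C, hc', hC, hb⟩ := H.kb
  have hEc := H.ct
  refine ⟨c / (4 * C), by positivity, ?_⟩
  filter_upwards [h, eventually_ge_atTop (1:ℝ)] with v h1 hv s hs
  have h2 := h1 s hs
  have hl := Real.log_nonneg hv
  have iP := H.part_int hs v
  have hc1 : Continuous fun u : ℝ => 4 * C * max (s * E (v - u)) 0 := by fun_prop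
  have h3 : ∫ u in Icc (-Real.log v) (Real.log v), max (s * E (v - u)) 0 * Φ u ≤
      ∫ u in Icc (-Real.log v) (Real.log v), 4 * C * max (s * E (v - u)) 0 := by
    refine setIntegral_mono_on iP.integrableOn (hc1.continuousOn.integrableOn_compact isCompact_Icc)
      measurableSet_Icc fun u hu => ?_
    have h4 : W1 u ≤ 4 := by
      have h5 := W1_le u
      have h6 : Real.exp (-(3 * |u|)) ≤ 1 := Real.exp_le_one_iff.2 (by have := abs_nonneg u; linarith)
      linarith
    have h7 : Φ u ≤ 4 * C := (hb u).2.trans (by nlinarith)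
    calc max (s * E (v - u)) 0 * Φ u ≤ max (s * E (v - u)) 0 * (4 * C) :=
          mul_le_mul_of_nonneg_left h7 (le_max_right _ _)
      _ = _ := by ring
  rw [integral_const_mul, refl_Icc (fun u => max (s * E u) 0) v (Real.log v)] at h3
  rw [intervalIntegral.integral_of_le (by linarith), ← integral_Icc_eq_integral_Ioc, div_mul_eq_mul_div,
    div_le_iff₀ (by positivity)]
  linarith

/-- large values in the window -/
theorem Dt.sup (H : Dt a m E X Φ) {s₀ : ℂ} (hs₀ : m s₀ ≠ 0) :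
    ∃ c : ℝ, 0 < c ∧ ∀ᶠ v : ℝ in atTop, ∀ s : ℝ, s = 1 ∨ s = -1 →
      ∃ u ∈ Icc (v - Real.log v) (v + Real.log v), c * Real.exp (|s₀.re - 1 / 2| * max u v) ≤ s * E u := by
  obtain ⟨c, hc, h⟩ := H.win hs₀
  have hst := H.strip s₀ hs₀
  set b : ℝ := |s₀.re - 1 / 2| with hb
  have hb0 : 0 ≤ b := abs_nonneg _
  have hJi : Integrable (fun u : ℝ => Real.exp (|u| / 2) * Φ u) := by
    refine (g_int H.kdk).congr (ae_of_all _ fun u => ?_)
    simp only
    rw [Complex.norm_real, Real.norm_of_nonneg (H.kpos u).le]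
  set J : ℝ := ∫ u : ℝ, Real.exp (|u| / 2) * Φ u with hJ
  have hpos : ∀ u : ℝ, 0 ≤ Real.exp (|u| / 2) * Φ u := fun u => by
    have := H.kpos u
    positivity
  have hJ0 : 0 ≤ J := integral_nonneg hpos
  set c' : ℝ := c / (2 * (J + 1)) with hc'
  have hc'0 : 0 < c' := by positivity
  refine ⟨c', hc'0, ?_⟩
  filter_upwards [h, eventually_ge_atTop (1:ℝ)] with v h1 hv s hs
  by_contra hcon
  push Not at hcon
  have h2 := h1 s hs
  have hv0 : 0 ≤ v := by linarith
  have iP := H.part_int hs v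
  have h3 : ∫ u in Icc (-Real.log v) (Real.log v), max (s * E (v - u)) 0 * Φ u ≤
      ∫ u in Icc (-Real.log v) (Real.log v), c' * Real.exp (b * v) * (Real.exp (|u| / 2) * Φ u) := by
    refine setIntegral_mono_on iP.integrableOn (hJi.const_mul _).integrableOn measurableSet_Icc fun u hu => ?_
    have h4 := hcon (v - u) ⟨by linarith [hu.2], by linarith [hu.1]⟩
    have h5 : b * max (v - u) v ≤ b * v + |u| / 2 := by
      have h6 : max (v - u) v ≤ v + |u| := max_le (by linarith [neg_abs_le u]) (by linarith [abs_nonneg u])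
      have h7 := abs_nonneg u
      nlinarith
    have h8 : max (s * E (v - u)) 0 ≤ c' * Real.exp (b * v) * Real.exp (|u| / 2) := by
      rw [mul_assoc, ← Real.exp_add]
      refine max_le (h4.le.trans (mul_le_mul_of_nonneg_left (Real.exp_le_exp.2 h5) hc'0.le)) (by positivity)
    rw [← mul_assoc]
    exact mul_le_mul_of_nonneg_right h8 (H.kpos u).le
  rw [integral_const_mul] at h3
  have h9 : ∫ u in Icc (-Real.log v) (Real.log v), Real.exp (|u| / 2) * Φ u ≤ J :=
    setIntegral_le_integral hJi (ae_of_all _ hpos)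
  have h10 := Real.exp_pos (b * v)
  have h11 : c' * Real.exp (b * v) * ∫ u in Icc (-Real.log v) (Real.log v), Real.exp (|u| / 2) * Φ u ≤
      c' * Real.exp (b * v) * (J + 1) := mul_le_mul_of_nonneg_left (by linarith) (by positivity)
  have h12 : c' * Real.exp (b * v) * (J + 1) = c / 2 * Real.exp (b * v) := by
    rw [hc']
    field_simp
  have h13 : c * Real.exp (b * v) ≤ c / 2 * Real.exp (b * v) := by linarith
  have h14 : 0 < c * Real.exp (b * v) := by positivity
  linarith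

/-- the growth from the zeros -/
theorem Dt.upper (H : Dt a m E X Φ) {θ : ℝ} (hθ : 0 ≤ θ) (hz : ∀ s, m s ≠ 0 → |s.re - 1 / 2| ≤ θ) :
    ∃ K : ℝ, 0 < K ∧ ∀ v, 0 ≤ v → |E v| ≤ K * Real.exp (θ * v) := by
  obtain ⟨R, C, h1, -, h3⟩ := H.ef
  set S0 : ℝ := ∑' s : ℂ, ‖(m s : ℂ) * hG a 0 (s - 1 / 2)‖ with hS0
  have hS0n : 0 ≤ S0 := tsum_nonneg fun _ => norm_nonneg _
  refine ⟨S0 + |C| + 1, by positivity, fun v hv => ?_⟩
  have h4 : ‖∑' s : ℂ, (m s : ℂ) * hG a v (s - 1 / 2)‖ ≤ S0 * Real.exp (θ * v) := by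
    refine tsum_of_norm_bounded (((H.sum 0).hasSum).mul_right _) fun s => ?_
    by_cases hs : m s = 0
    · rw [hs]; simp
    rw [term_norm]
    refine mul_le_mul_of_nonneg_left (Real.exp_le_exp.2 ?_) (norm_nonneg _)
    have h6 := (le_abs_self _).trans (hz s hs)
    have h7 := mul_le_mul_of_nonneg_left h6 hv
    linarith
  have h6 : |E v| ≤ ‖∑' s : ℂ, (m s : ℂ) * hG a v (s - 1 / 2)‖ + ‖R v‖ := by
    have e : ((E v : ℝ) : ℂ) = (∑' s : ℂ, (m s : ℂ) * hG a v (s - 1 / 2)) - R v := by rw [h3]; ring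
    rw [← Real.norm_eq_abs, ← Complex.norm_real, e]
    exact norm_sub_le _ _
  have h7 := h1 v hv
  have h9 := le_abs_self C
  have h10 : 1 ≤ Real.exp (θ * v) := Real.one_le_exp (mul_nonneg hθ hv)
  have h11 := abs_nonneg C
  nlinarith

/-- the supremum over the window -/
def Sw (E : ℝ → ℝ) (s v : ℝ) : ℝ := sSup ((fun u => s * E u) '' Icc (v - Real.log v) (v + Real.log v))

lemma Dt.le_Sw (H : Dt a m E X Φ) (s : ℝ) {v u : ℝ} (hu : u ∈ Icc (v - Real.log v) (v + Real.log v)) :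
    s * E u ≤ Sw E s v := by
  have hEc := H.ct
  exact le_csSup (isCompact_Icc.bddAbove_image (by fun_prop : Continuous fun u => s * E u).continuousOn)
    (mem_image_of_mem _ hu)

lemma log_div : Tendsto (fun v : ℝ => Real.log v / v) atTop (𝓝 0) :=
  Real.isLittleO_log_id_atTop.tendsto_div_nhds_zero

lemma sub_log : Tendsto (fun v : ℝ => v - Real.log v) atTop atTop := by
  have h1 : ∀ᶠ v : ℝ in atTop, v / 2 ≤ v - Real.log v := by
    filter_upwards [log_div.eventually (gt_mem_nhds (show (0:ℝ) < 1 / 2 by norm_num)), eventually_gt_atTop (0:ℝ)] with v h1 h2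
    rw [div_lt_iff₀ h2] at h1
    linarith
  exact tendsto_atTop_mono' _ h1 (tendsto_id.atTop_div_const (by norm_num))

/-- **the exponent of the one-sided suprema** -/
theorem Dt.lim (H : Dt a m E X Φ) {θ : ℝ} (hθ : IsLUB {t : ℝ | ∃ s : ℂ, m s ≠ 0 ∧ |s.re - 1 / 2| = t} θ)
    {s : ℝ} (hs : s = 1 ∨ s = -1) : Tendsto (fun v => Real.log (Sw E s v) / v) atTop (𝓝 θ) := by
  obtain ⟨_, s₁, hs₁, rfl⟩ := hθ.nonempty
  have hθ0 : 0 ≤ θ := (abs_nonneg _).trans (hθ.1 ⟨s₁, hs₁, rfl⟩)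
  have habs : |s| = 1 := by rcases hs with h | h <;> rw [h] <;> norm_num
  have low : ∀ s₀ : ℂ, m s₀ ≠ 0 → ∃ c : ℝ, 0 < c ∧ ∀ᶠ v : ℝ in atTop,
      c * Real.exp (|s₀.re - 1 / 2| * v) ≤ Sw E s v := by
    intro s₀ hs₀
    obtain ⟨c, hc, h⟩ := H.sup hs₀
    refine ⟨c, hc, ?_⟩
    filter_upwards [h] with v hv
    obtain ⟨u, hu, hle⟩ := hv s hs
    refine le_trans (mul_le_mul_of_nonneg_left (Real.exp_le_exp.2 ?_) hc.le) (hle.trans (H.le_Sw s hu))
    exact mul_le_mul_of_nonneg_left (le_max_right _ _) (abs_nonneg _)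
  obtain ⟨c₁, hc₁, hl₁⟩ := low s₁ hs₁
  obtain ⟨K, hK, hup⟩ := H.upper hθ0 (fun s₀ h => hθ.1 ⟨s₀, h, rfl⟩)
  have hpos : ∀ᶠ v : ℝ in atTop, 0 < Sw E s v := by
    filter_upwards [hl₁] with v hv
    exact lt_of_lt_of_le (by positivity) hv
  rw [tendsto_order]
  constructor
  · intro b hb
    obtain ⟨_, ⟨s₀, hs₀, rfl⟩, hlt, -⟩ := hθ.exists_between hb
    obtain ⟨c, hc, hl⟩ := low s₀ hs₀
    have h1 : Tendsto (fun v : ℝ => Real.log c / v + |s₀.re - 1 / 2|) atTop (𝓝 (0 + |s₀.re - 1 / 2|)) :=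
      (tendsto_const_nhds.div_atTop tendsto_id).add tendsto_const_nhds
    rw [zero_add] at h1
    filter_upwards [hl, h1.eventually (lt_mem_nhds hlt), eventually_gt_atTop (0:ℝ)] with v h2 h3 hv
    refine h3.trans_le ?_
    have h4 := Real.log_le_log (by positivity) h2
    rw [Real.log_mul hc.ne' (Real.exp_pos _).ne', Real.log_exp] at h4
    rw [le_div_iff₀ hv, add_mul, div_mul_cancel₀ _ hv.ne']
    exact h4
  · intro b hb
    have h1 : Tendsto (fun v : ℝ => Real.log K / v + θ * (1 + Real.log v / v)) atTop (𝓝 (0 + θ * (1 + 0))) :=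
      (tendsto_const_nhds.div_atTop tendsto_id).add ((tendsto_const_nhds.add log_div).const_mul θ)
    rw [zero_add, add_zero, mul_one] at h1
    filter_upwards [hpos, h1.eventually (gt_mem_nhds hb), eventually_gt_atTop (0:ℝ), eventually_ge_atTop (1:ℝ),
      sub_log.eventually_ge_atTop 0] with v h2 h3 hv hv1 hv2
    refine lt_of_le_of_lt ?_ h3
    have hl := Real.log_nonneg hv1
    have h4 : Sw E s v ≤ K * Real.exp (θ * (v + Real.log v)) := by
      refine csSup_le ⟨_, mem_image_of_mem _ (show v ∈ Icc (v - Real.log v) (v + Real.log v) by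
        constructor <;> linarith)⟩ ?_
      rintro _ ⟨u, hu, rfl⟩
      have h5 := hup u (hv2.trans hu.1)
      have h6 : s * E u ≤ |E u| := by
        refine (le_abs_self _).trans ?_
        rw [abs_mul, habs, one_mul]
      refine h6.trans (h5.trans (mul_le_mul_of_nonneg_left (Real.exp_le_exp.2 ?_) hK.le))
      exact mul_le_mul_of_nonneg_left hu.2 hθ0
    have h5 := Real.log_le_log h2 h4
    rw [Real.log_mul hK.ne' (Real.exp_pos _).ne', Real.log_exp] at h5
    rw [div_le_iff₀ hv]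
    refine h5.trans (le_of_eq ?_)
    field_simp

/-- **the local one-sided criterion** -/
theorem Dt.crit (H : Dt a m E X Φ) {t : ℝ} (ht : 0 ≤ t) : (∀ s₀ : ℂ, m s₀ ≠ 0 → |s₀.re - 1 / 2| ≤ t) ↔
    ∃ s : ℝ, (s = 1 ∨ s = -1) ∧ ∀ ε : ℝ, 0 < ε → ∃ᶠ v : ℝ in atTop,
      ∀ u ∈ Icc (v - Real.log v) (v + Real.log v), s * E u ≤ Real.exp ((t + ε) * u) := by
  constructor
  · intro h
    obtain ⟨K, hK, hup⟩ := H.upper ht h
    refine ⟨1, Or.inl rfl, fun ε hε => Eventually.frequently ?_⟩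
    have h1 : ∀ᶠ u : ℝ in atTop, K ≤ Real.exp (ε * u) :=
      (Real.tendsto_exp_atTop.comp (tendsto_id.const_mul_atTop hε)).eventually_ge_atTop K
    obtain ⟨U, hU⟩ := eventually_atTop.1 h1
    filter_upwards [sub_log.eventually_ge_atTop (max U 0)] with v hv u hu
    have hu1 : max U 0 ≤ u := hv.trans hu.1
    have h2 := hup u ((le_max_right _ _).trans hu1)
    have h3 := hU u ((le_max_left _ _).trans hu1)
    rw [one_mul, add_mul, Real.exp_add]
    have h4 := Real.exp_pos (t * u)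
    calc E u ≤ |E u| := le_abs_self _
      _ ≤ K * Real.exp (t * u) := h2
      _ ≤ Real.exp (ε * u) * Real.exp (t * u) := mul_le_mul_of_nonneg_right h3 h4.le
      _ = _ := mul_comm _ _
  · rintro ⟨s, hs, h⟩ s₀ hs₀
    by_contra hcon
    rw [not_le] at hcon
    obtain ⟨c, hc, hl⟩ := H.sup hs₀
    set b : ℝ := |s₀.re - 1 / 2| with hb
    set ε : ℝ := (b - t) / 2 with hε
    have hε0 : 0 < ε := by rw [hε]; linarith
    have h1 : Tendsto (fun u : ℝ => Real.exp (ε * u)) atTop atTop :=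
      Real.tendsto_exp_atTop.comp (tendsto_id.const_mul_atTop hε0)
    obtain ⟨U, hU⟩ := eventually_atTop.1 (h1.eventually_gt_atTop c⁻¹)
    obtain ⟨v, h2, h3, h4⟩ := ((h ε hε0).and_eventually (hl.and (sub_log.eventually_ge_atTop U))).exists
    obtain ⟨u, hu, h5⟩ := h3 s hs
    have h6 := h2 u hu
    have h7 := hU u (h4.trans hu.1)
    have h8 : c * Real.exp (b * u) ≤ Real.exp ((t + ε) * u) :=
      le_trans (mul_le_mul_of_nonneg_left (Real.exp_le_exp.2 (mul_le_mul_of_nonneg_left (le_max_left _ _)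
        (abs_nonneg _))) hc.le) (h5.trans h6)
    have h9 : Real.exp (b * u) = Real.exp (ε * u) * Real.exp ((t + ε) * u) := by
      rw [← Real.exp_add]
      congr 1
      rw [hε]; ring
    rw [h9, ← mul_assoc] at h8
    have h10 := Real.exp_pos ((t + ε) * u)
    have h11 : 1 < c * Real.exp (ε * u) := by
      have := mul_lt_mul_of_pos_left h7 hc
      rwa [mul_inv_cancel₀ hc.ne'] at this
    nlinarith

end

end Pool.Agent.E8helper62.RX
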